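import Mathlib

set_option autoImplicit false
set_option maxSynthPendingDepth 3

namespace Pool.Agent.Results.MP_8a557e_co.Counter
open Finset

/-- f is weighted threshold -/
def Weighted {n : ℕ} (f : (Fin n → Bool) → Bool) : Prop :=
  ∃ (w : Fin n → ℝ) (q : ℝ), ∀ x, f x = true ↔ q ≤ ∑ i, w i * (if x i = true then 1 else 0)

/-- f is k-summable: j true and j false vectors with the same sum, for some 1 ≤ j ≤ k -/
def KSummable {n : ℕ} (k : ℕ) (f : (Fin n → Bool) → Bool) : Prop :=
  ∃ j : ℕ, 1 ≤ j ∧ j ≤ k ∧ ∃ x y : Fin j → Fin n → Bool,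
    (∀ t, f (x t) = true) ∧ (∀ t, f (y t) = false) ∧
    ∀ i, (∑ t, if x t i = true then (1 : ℤ) else 0) = ∑ t, if y t i = true then (1 : ℤ) else 0

noncomputable def ind (b : Bool) : ℝ := if b = true then 1 else 0

lemma ind_mono {a b : Bool} (h : a ≤ b) : ind a ≤ ind b := by
  cases a <;> cases b <;> first | exact absurd h (by decide) | simp [ind]

lemma ind_inj {a b : Bool} (h : ind a = ind b) : a = b := by
  cases a <;> cases b <;> simp_all [ind]

lemma both_zero {j : ℕ} (a b : Fin j → ℝ) (ha : ∀ t, 0 ≤ a t) (hb : ∀ t, b t ≤ 0)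
    (h : ∑ t, a t = ∑ t, b t) : (∀ t, a t = 0) ∧ ∀ t, b t = 0 := by
  have h1 : 0 ≤ ∑ t, a t := sum_nonneg fun t _ => ha t
  have h2 : ∑ t, b t ≤ 0 := sum_nonpos fun t _ => hb t
  exact ⟨fun t => (sum_eq_zero_iff_of_nonneg fun t _ => ha t).mp (by linarith) t (mem_univ _),
    fun t => (sum_eq_zero_iff_of_nonpos fun t _ => hb t).mp (by linarith) t (mem_univ _)⟩

lemma frame {n : ℕ} {I : Type} [Fintype I] (vec : I → Fin n → Bool) (sg : I → Bool) (K : ℕ)
    (r : ℝ) (H1 : ∀ v, ∑ c, ind (vec v c) = r)
    (H2 : ∀ (x : Fin n → Bool) (l : I → ℝ), ∑ v, l v = 1 →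
      (∀ c, ind (x c) = ∑ v, l v * ind (vec v c)) → ∃ v, x = vec v)
    (H3 : Function.Injective vec)
    (d : I → ℝ) (d1 : ∀ v, sg v = true → 0 ≤ d v) (d2 : ∀ v, sg v = false → d v < 0)
    (d0 : ∃ v, sg v = false)
    (d3 : ∑ v, d v = 0) (d4 : ∀ c, ∑ v, d v * ind (vec v c) = 0)
    (H5 : ∀ j, 1 ≤ j → ∀ X Y : Fin j → I, (∀ t, sg (X t) = true) → (∀ t, sg (Y t) = false) →
      (∀ c, ∑ t, ind (vec (X t) c) = ∑ t, ind (vec (Y t) c)) → K < j) :
    ∃ f : (Fin n → Bool) → Bool, Monotone f ∧ ¬ Weighted f ∧ ¬ KSummable K f := by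
  classical
  let hom : (Fin n → Bool) → ℝ × (Fin n → ℝ) := fun x => (1, fun c => ind (x c))
  let W : Submodule ℝ (ℝ × (Fin n → ℝ)) := Submodule.span ℝ (Set.range fun v => hom (vec v))
  obtain ⟨φ0, hφ0⟩ := Module.exists_dual_forall_apply_ne_zero (K := ℝ)
    (fun x : {x : Fin n → Bool // hom x ∉ W} => W.mkQ (hom x.1))
    (fun x => by simpa using x.2)
  let φ : (ℝ × (Fin n → ℝ)) →ₗ[ℝ] ℝ := φ0.comp W.mkQ
  have φv : ∀ v, φ (hom (vec v)) = 0 := by
    intro v
    have : W.mkQ (hom (vec v)) = 0 := by
      simpa using (Submodule.subset_span ⟨v, rfl⟩ : hom (vec v) ∈ W)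
    simp only [φ, LinearMap.comp_apply, this, map_zero]
  have φx : ∀ x, φ (hom x) = 0 → ∃ v, x = vec v := by
    intro x hx
    have hW : hom x ∈ W := by
      by_contra h
      exact hφ0 ⟨x, h⟩ hx
    obtain ⟨l, hl⟩ := (Submodule.mem_span_range_iff_exists_fun ℝ).mp hW
    refine H2 x l ?_ fun c => ?_
    · simpa [hom, Prod.fst_sum] using congrArg Prod.fst hl
    · have := congrFun (congrArg Prod.snd hl) c
      simpa [hom, Prod.snd_sum] using this.symm
  let ψ : (Fin n → Bool) → ℝ := fun x => ∑ c, ind (x c) - r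
  let P : (Fin n → Bool) → Prop := fun x => 0 < ψ x ∨ (ψ x = 0 ∧ (0 < φ (hom x) ∨
    (φ (hom x) = 0 ∧ ∃ v, sg v = true ∧ x = vec v)))
  have Pv : ∀ v, P (vec v) ↔ sg v = true := by
    intro v
    have : ψ (vec v) = 0 := by simp [ψ, H1]
    simp only [P, this, φv, lt_irrefl, false_or, true_and]
    exact ⟨fun ⟨v', h, e⟩ => H3 e ▸ h, fun h => ⟨v, h, rfl⟩⟩
  refine ⟨fun x => decide (P x), ?_, ?_, ?_⟩
  · intro x y hxy
    rw [Bool.le_iff_imp]
    simp only [decide_eq_true_eq]
    intro hx
    by_cases e : x = y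
    · exact e ▸ hx
    · obtain ⟨c, hc⟩ := Function.ne_iff.mp e
      have : ∑ c, ind (x c) < ∑ c, ind (y c) :=
        sum_lt_sum (fun c _ => ind_mono (hxy c))
          ⟨c, mem_univ _, lt_of_le_of_ne (ind_mono (hxy c)) fun h => hc (ind_inj h)⟩
      left
      rcases hx with h | h
      · simp only [ψ] at h ⊢; linarith
      · have := h.1
        simp only [ψ] at this ⊢; linarith
  · rintro ⟨w, q, h⟩
    simp only [decide_eq_true_eq] at h
    have e : ∑ v, d v * (∑ c, w c * ind (vec v c) - q) = 0 := by
      simp only [mul_sub, sum_sub_distrib, mul_sum, ← sum_mul, d3]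
      rw [sum_comm]
      have : ∀ c, ∑ v, d v * (w c * ind (vec v c)) = 0 := by
        intro c
        have := congrArg (w c * ·) (d4 c)
        simp only [mul_sum, mul_zero] at this
        rw [← this]
        exact sum_congr rfl fun v _ => by ring
      simp [this]
    have hneg : ∀ v, sg v = false → 0 < d v * (∑ c, w c * ind (vec v c) - q) := by
      intro v hv
      have h1 : ¬ q ≤ ∑ c, w c * ind (vec v c) := by
        intro h2
        have := (Pv v).mp ((h (vec v)).mpr h2)
        simp [hv] at this
      exact mul_pos_of_neg_of_neg (d2 v hv) (by linarith)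
    obtain ⟨v0, hv0⟩ := d0
    refine absurd e (ne_of_gt (sum_pos' (fun v _ => ?_) ⟨v0, mem_univ _, hneg v0 hv0⟩))
    cases hv : sg v
    · exact (hneg v hv).le
    · have h1 : q ≤ ∑ c, w c * ind (vec v c) := (h (vec v)).mp ((Pv v).mpr hv)
      exact mul_nonneg (d1 v hv) (by linarith)
  · rintro ⟨j, j1, jk, x, y, hx, hy, hs⟩
    simp only [decide_eq_true_eq, decide_eq_false_iff_not] at hx hy
    have hs' : ∀ c, ∑ t, ind (x t c) = ∑ t, ind (y t c) := by
      intro c
      have := congrArg (Int.cast : ℤ → ℝ) (hs c)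
      simpa [ind] using this
    have s1 : ∑ t, ψ (x t) = ∑ t, ψ (y t) := by
      simp only [ψ, sum_sub_distrib]
      rw [sum_comm, sum_comm (f := fun t c => ind (y t c))]
      simp only [hs']
    have s2 : ∑ t, φ (hom (x t)) = ∑ t, φ (hom (y t)) := by
      rw [← map_sum, ← map_sum]
      congr 1
      refine Prod.ext (by simp [hom, Prod.fst_sum]) (funext fun c => ?_)
      simpa [hom, Prod.snd_sum] using hs' c
    obtain ⟨a1, b1⟩ := both_zero _ _ (fun t => by
        rcases hx t with h | h
        · exact h.le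
        · exact h.1.ge)
      (fun t => not_lt.mp fun h => hy t (Or.inl h)) s1
    obtain ⟨a2, b2⟩ := both_zero _ _ (fun t => by
        rcases hx t with h | ⟨_, h | h⟩
        · exact absurd (a1 t) h.ne'
        · exact h.le
        · exact h.1.ge)
      (fun t => not_lt.mp fun h => hy t (Or.inr ⟨b1 t, Or.inl h⟩)) s2
    choose X hX using fun t => φx _ (a2 t)
    choose Y hY using fun t => φx _ (b2 t)
    have := H5 j j1 X Y (fun t => (Pv _).mp (hX t ▸ hx t))
      (fun t => by
        have := hy t
        rw [hY t, Pv] at this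
        simpa using this)
      (fun c => by simpa only [← hX, ← hY] using hs' c)
    omega

/-! the construction -/

abbrev II (N : ℕ) := Fin (N + 1) × Bool × Bool
abbrev CC (N : ℕ) := (Fin (N + 1) × Bool × Bool) ⊕ (Fin N × Bool × Bool)

def mem {N : ℕ} : CC N → II N → Bool
  | Sum.inl (i, a, b), (k, s, a') => decide (k = i ∧ a' = (if s = true then a else b))
  | Sum.inr (i, a, s), (k, s', a') =>
    decide (a' = a ∧ (if s' = s then k = i.succ else k.val ≤ i.val))

noncomputable def M {N : ℕ} (c : CC N) (l : II N → ℝ) : ℝ := ∑ v, l v * ind (mem c v)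

lemma M_pair {N : ℕ} (i : Fin (N + 1)) (a b : Bool) (l : II N → ℝ) :
    M (Sum.inl (i, a, b)) l = l (i, true, a) + l (i, false, b) := by
  simp only [M, Fintype.sum_prod_type, Fintype.sum_bool, mem, ind]
  rw [sum_eq_single i]
  · cases a <;> cases b <;> simp
  · intro k _ hk; simp [hk]
  · simp

lemma M_link {N : ℕ} (i : Fin N) (a s : Bool) (l : II N → ℝ) :
    M (Sum.inr (i, a, s)) l = l (i.succ, s, a) +
      ∑ k : Fin (N + 1), if k.val ≤ i.val then l (k, !s, a) else 0 := by
  simp only [M, Fintype.sum_prod_type, Fintype.sum_bool, mem, ind]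
  cases a <;> cases s <;> simp [sum_add_distrib, add_comm]

lemma M_sub {N : ℕ} (c : CC N) (l m : II N → ℝ) : M c (l - m) = M c l - M c m := by
  simp [M, sub_mul, sum_sub_distrib]

lemma M_single {N : ℕ} (c : CC N) (v : II N) : M c (Pi.single v 1) = ind (mem c v) := by
  classical
  rw [M, sum_eq_single v]
  · simp
  · intro u _ hu; simp [hu]
  · simp

/-- if all pair sums vanish then the links are plus or minus one number -/
lemma links {N : ℕ} (m : II N → ℝ) (hp : ∀ i a b, m (i, true, a) + m (i, false, b) = 0)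
    (i : Fin N) (a s : Bool) : M (Sum.inr (i, a, s)) m =
      (if s = true then 1 else -1) * (m (i.succ, true, true) -
        ∑ k : Fin (N + 1), if k.val ≤ i.val then m (k, true, true) else 0) := by
  have h1 : ∀ k a, m (k, false, a) = -m (k, true, true) := fun k a => by
    linarith [hp k true a]
  have h2 : ∀ k a, m (k, true, a) = m (k, true, true) := fun k a => by
    linarith [hp k a true, h1 k true]
  rw [M_link]
  cases s
  · simp only [Bool.not_false, h1, h2 _ a]
    simp
    ring
  · simp only [Bool.not_true, h1, h2 _ a]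
    have : ∀ k : Fin (N + 1), (if k.val ≤ i.val then -m (k, true, true) else 0) =
        -(if k.val ≤ i.val then m (k, true, true) else 0) := fun k => by split_ifs <;> simp
    simp only [this, sum_neg_distrib]
    simp
    ring

lemma ind01 (b : Bool) : ind b = 0 ∨ ind b = 1 := by cases b <;> simp [ind]

lemma rigid {N : ℕ} (l : II N → ℝ) (hl : ∑ v, l v = 1)
    (h01 : ∀ c, M c l = 0 ∨ M c l = 1) : ∃ v, ∀ c, M c l = ind (mem c v) := by
  classical
  have hp : ∀ i a b, l (i, true, a) + l (i, false, b) = 0 ∨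
      l (i, true, a) + l (i, false, b) = 1 := fun i a b => M_pair i a b l ▸ h01 _
  let L : Fin (N + 1) → ℝ := fun i =>
    l (i, true, true) + l (i, true, false) + (l (i, false, true) + l (i, false, false))
  have hL : ∑ i, L i = 1 := by
    rw [← hl]
    simp only [Fintype.sum_prod_type, Fintype.sum_bool, L]
  have L0 : ∀ i, 0 ≤ L i := fun i => by
    rcases hp i true true with h | h <;> rcases hp i false false with h' | h' <;>
      simp only [L] <;> linarith
  obtain ⟨i0, hi0⟩ : ∃ i, L i ≠ 0 := by
    by_contra h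
    push Not at h
    simp [h] at hL
  have hsplit := add_sum_erase univ L (mem_univ i0)
  have hrest : 0 ≤ ∑ i ∈ univ.erase i0, L i := sum_nonneg fun i _ => L0 i
  have L1 : L i0 = 1 := by
    rcases hp i0 true true with h | h <;> rcases hp i0 false false with h' | h' <;>
      simp only [L] at * <;> first | linarith | (exfalso; apply hi0; linarith)
  have Lz : ∀ i, i ≠ i0 → L i = 0 := fun i hi =>
    (sum_eq_zero_iff_of_nonneg fun i _ => L0 i).mp (by linarith)
      i (mem_erase.mpr ⟨hi, mem_univ _⟩)
  obtain ⟨s0, a0, hv⟩ : ∃ s0 a0 : Bool, ∀ a b, l (i0, true, a) + l (i0, false, b) =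
      ind (mem (Sum.inl (i0, a, b)) (i0, s0, a0)) := by
    simp only [L] at L1
    rcases hp i0 true true with h | h <;> rcases hp i0 true false with h' | h'
    · refine ⟨true, false, fun a b => ?_⟩
      cases a <;> cases b <;> simp [mem, ind] <;> linarith
    · refine ⟨false, false, fun a b => ?_⟩
      cases a <;> cases b <;> simp [mem, ind] <;> linarith
    · refine ⟨false, true, fun a b => ?_⟩
      cases a <;> cases b <;> simp [mem, ind] <;> linarith
    · refine ⟨true, true, fun a b => ?_⟩
      cases a <;> cases b <;> simp [mem, ind] <;> linarith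
  have pairs : ∀ i a b, M (Sum.inl (i, a, b)) l = ind (mem (Sum.inl (i, a, b)) (i0, s0, a0)) := by
    intro i a b
    rw [M_pair]
    by_cases hi : i = i0
    · rw [hi]; exact hv a b
    · have := Lz i hi
      have e : ind (mem (Sum.inl (i, a, b)) (i0, s0, a0)) = 0 := by
        simp [mem, ind, Ne.symm hi]
      rw [e]
      simp only [L] at this
      rcases hp i a b with h | h
      · exact h
      · rcases hp i (!a) (!b) with h' | h' <;> cases a <;> cases b <;>
          simp only [Bool.not_true, Bool.not_false] at h' <;> linarith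
  refine ⟨(i0, s0, a0), ?_⟩
  let m : II N → ℝ := l - Pi.single (i0, s0, a0) 1
  have hm : ∀ c, M c m = M c l - ind (mem c (i0, s0, a0)) := fun c => by
    rw [M_sub, M_single]
  have mp : ∀ i a b, m (i, true, a) + m (i, false, b) = 0 := fun i a b => by
    rw [← M_pair, hm, pairs, sub_self]
  rintro (⟨i, a, b⟩ | ⟨i, a, s⟩)
  · exact pairs i a b
  · have e : ∀ s, ind (mem (Sum.inr (i, !a0, s)) (i0, s0, a0)) = 0 := by
      intro s; simp [mem, ind]
    have k1 := links m mp i (!a0) true
    have k2 := links m mp i (!a0) false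
    have k3 := links m mp i a s
    rw [hm, e] at k1 k2
    rw [hm] at k3
    have z : m (i.succ, true, true) -
        (∑ k : Fin (N + 1), if k.val ≤ i.val then m (k, true, true) else 0) = 0 := by
      simp only [if_true, Bool.false_eq_true, if_false] at k1 k2
      rcases h01 (Sum.inr (i, !a0, true)) with h | h <;>
        rcases h01 (Sum.inr (i, !a0, false)) with h' | h' <;> linarith
    rw [z] at k3
    linarith

/-- doubling sequence: 1, 1, 2, 4, ... -/
lemma growth (N : ℕ) (τ : Fin (N + 1) → ℝ)
    (h : ∀ i : Fin N, τ i.succ = ∑ k : Fin (N + 1), if k.val ≤ i.val then τ k else 0)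
    (i : ℕ) (hi : i ≤ N) :
    (∑ k : Fin (N + 1), if k.val ≤ i then τ k else 0) = 2 ^ i * τ 0 := by
  induction i with
  | zero =>
    rw [sum_eq_single 0]
    · simp
    · intro k _ hk
      have : ¬ k.val ≤ 0 := fun h => hk (Fin.ext (by simpa using h))
      simp [this]
    · simp
  | succ i ih =>
    have h1 := h ⟨i, by omega⟩
    have : ∀ k : Fin (N + 1), (if k.val ≤ i + 1 then τ k else 0) =
        (if k.val ≤ i then τ k else 0) + if k = (⟨i, by omega⟩ : Fin N).succ then τ k else 0 := by
      intro k
      by_cases e : k = (⟨i, by omega⟩ : Fin N).succ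
      · subst e; simp
      · have e' : k.val ≠ i + 1 := fun h => e (Fin.ext h)
        by_cases h2 : k.val ≤ i
        · rw [if_neg e, if_pos h2, if_pos (by omega), add_zero]
        · rw [if_neg e, if_neg h2, if_neg (by omega), add_zero]
    simp only [this, sum_add_distrib, sum_ite_eq', mem_univ, if_true]
    rw [h1, ih (by omega)]
    ring

def vec0 {N : ℕ} (v : II N) (c : CC N × Bool) : Bool := if c.2 = true then mem c.1 v else !mem c.1 v

noncomputable def dd (i : ℕ) : ℝ := if i = 0 then 1 else 2 ^ (i - 1)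

lemma dd_sum (N i : ℕ) (hi : i ≤ N) :
    (∑ k : Fin (N + 1), if k.val ≤ i then dd k.val else 0) = 2 ^ i := by
  have : (∑ k : Fin (N + 1), if k.val ≤ i then dd k.val else 0) = ∑ k ∈ range (i + 1), dd k := by
    rw [Fin.sum_univ_eq_sum_range (fun k => if k ≤ i then dd k else 0), ← sum_filter]
    congr 1
    ext k
    simp only [mem_filter, mem_range]
    omega
  rw [this]
  clear this hi
  induction i with
  | zero => simp [dd]
  | succ i ih => rw [sum_range_succ, ih]; simp [dd]; ring

lemma ind_not (b : Bool) : ind (!b) = 1 - ind b := by cases b <;> simp [ind]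

lemma main (N : ℕ) : ∃ f : (Fin (16 * N + 8) → Bool) → Bool,
    Monotone f ∧ ¬ Weighted f ∧ ¬ KSummable (2 ^ N) f := by
  classical
  let e : Fin (16 * N + 8) ≃ CC N × Bool := Fintype.equivOfCardEq (by simp; ring)
  let d : II N → ℝ := fun v => (if v.2.1 = true then 1 else -1) * dd v.1.val
  have dpos : ∀ i, 0 < dd i := fun i => by unfold dd; split_ifs <;> positivity
  have dsum : ∑ v, d v = 0 := by
    simp [d, Fintype.sum_prod_type]
  have dM : ∀ c, M c d = 0 := by
    have hp : ∀ i a b, d (i, true, a) + d (i, false, b) = 0 := fun i a b => by simp [d]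
    rintro (⟨i, a, b⟩ | ⟨i, a, s⟩)
    · rw [M_pair, hp]
    · rw [links d hp]
      have := dd_sum N i.val (by omega)
      simp only [d, if_true, one_mul, this]
      simp [dd]
  refine frame (fun v c => vec0 v (e c)) (fun v => v.2.1) (2 ^ N) (Fintype.card (CC N))
    (fun v => ?_) (fun x l hl hx => ?_) (fun u v huv => ?_) d (fun v hv => ?_) (fun v hv => ?_)
    ⟨(0, false, false), rfl⟩ dsum (fun c => ?_) (fun j j1 X Y hX hY hs => ?_)
  · rw [Equiv.sum_comp e (fun c => ind (vec0 v c))]
    simp [Fintype.sum_prod_type, vec0, ind_not]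
  · obtain ⟨v, hv⟩ := rigid l hl fun c => by
      have := hx (e.symm (c, true))
      simp only [Equiv.apply_symm_apply, vec0, if_true] at this
      rw [M, ← this]
      exact ind01 _
    refine ⟨v, funext fun c => ind_inj ?_⟩
    rw [hx c]
    rcases e c with ⟨c', b⟩
    cases b
    · simp only [vec0, Bool.false_eq_true, if_false, ind_not, mul_sub, sum_sub_distrib, mul_one,
        hl, ← hv, M]
    · simp only [vec0, if_true, ← hv, M]
  · have h : ∀ c, mem c u = mem c v := fun c => by
      simpa [vec0] using congrFun huv (e.symm (c, true))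
    obtain ⟨i, s, a⟩ := u
    obtain ⟨i', s', a'⟩ := v
    have h1 := h (Sum.inl (i, a, a))
    have h2 := h (Sum.inl (i, a, !a))
    cases s <;> cases s' <;> cases a <;> cases a' <;> simp_all [mem]
  · simp only [d, hv, if_true, one_mul]; exact (dpos _).le
  · simp only [d, hv]; simpa using dpos _
  · rcases e c with ⟨c', b⟩
    cases b
    · have := dM c'
      simp only [vec0, Bool.false_eq_true, if_false, ind_not, mul_sub, sum_sub_distrib, mul_one,
        dsum]
      rw [M] at this
      rw [this, sub_self]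
    · simpa only [vec0, if_true, M] using dM c'
  · let cX : II N → ℝ := ∑ t, Pi.single (X t) 1
    let cY : II N → ℝ := ∑ t, Pi.single (Y t) 1
    have Msum : ∀ (Z : Fin j → II N) (c : CC N),
        M c (∑ t, Pi.single (Z t) 1) = ∑ t, ind (mem c (Z t)) := by
      intro Z c
      simp only [← M_single]
      simp only [M, Finset.sum_apply, sum_mul]
      rw [sum_comm]
    have hM : ∀ c, M c (cX - cY) = 0 := fun c => by
      have := hs (e.symm (c, true))
      simp only [Equiv.apply_symm_apply, vec0, if_true] at this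
      rw [M_sub, Msum, Msum, this, sub_self]
    have hp : ∀ i a b, (cX - cY) (i, true, a) + (cX - cY) (i, false, b) = 0 := fun i a b => by
      rw [← M_pair, hM]
    have hY0 : ∀ i a, cY (i, true, a) = 0 := fun i a => by
      simp only [cY, Finset.sum_apply]
      refine sum_eq_zero fun t _ => Pi.single_eq_of_ne (fun h => ?_) _
      have := hY t
      rw [← h] at this
      simp at this
    have hX0 : ∀ i a, cX (i, false, a) = 0 := fun i a => by
      simp only [cX, Finset.sum_apply]
      refine sum_eq_zero fun t _ => Pi.single_eq_of_ne (fun h => ?_) _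
      have := hX t
      rw [← h] at this
      simp at this
    have g := growth N (fun k => cX (k, true, true)) (fun i => by
      have := links _ hp i true true
      rw [hM] at this
      simp only [Pi.sub_apply, hY0, sub_zero, if_true, one_mul] at this
      linarith) N le_rfl
    have tot : ∑ v, cX v = j := by
      simp only [cX, Finset.sum_apply]
      rw [sum_comm]
      simp
    have same : ∀ i, cX (i, true, false) = cX (i, true, true) := fun i => by
      have h1 := hp i false true
      have h2 := hp i true true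
      simp only [Pi.sub_apply, hY0] at h1 h2
      linarith
    simp only [Fintype.sum_prod_type, Fintype.sum_bool, hX0, same, add_zero,
      sum_add_distrib] at tot
    have g' : ∑ k : Fin (N + 1), cX (k, true, true) = 2 ^ N * cX (0, true, true) := by
      rw [← g]
      exact sum_congr rfl fun k _ => by rw [if_pos (by omega)]
    obtain ⟨m, hm⟩ : ∃ m : ℕ, cX (0, true, true) = m := by
      refine ⟨∑ t, if (0, true, true) = X t then 1 else 0, ?_⟩
      simp only [cX, Finset.sum_apply, Pi.single_apply]
      push_cast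
      rfl
    rw [g', hm] at tot
    have tot' : 2 ^ N * m + 2 ^ N * m = j := by exact_mod_cast tot
    rcases Nat.eq_zero_or_pos m with h | h
    · subst h; omega
    · have h1 : 2 ^ N ≤ 2 ^ N * m := Nat.le_mul_of_pos_right _ h
      have h2 : 0 < 2 ^ N := by positivity
      omega

theorem result (p : Polynomial ℝ) : ∃ (n : ℕ) (f : (Fin n → Bool) → Bool),
    Monotone f ∧ ¬ Weighted f ∧ ∀ k : ℕ, (k : ℝ) ≤ p.eval (n : ℝ) → ¬ KSummable k f := by
  have hl : 0 < Real.log 2 := Real.log_pos (by norm_num)
  have h1 := (p.comp (Polynomial.C (16 / Real.log 2) * Polynomial.X +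
    Polynomial.C 8)).tendsto_div_exp_atTop
  have h2 : Filter.Tendsto (fun N : ℕ => (N : ℝ) * Real.log 2) Filter.atTop Filter.atTop :=
    tendsto_natCast_atTop_atTop.atTop_mul_const hl
  obtain ⟨N, hN⟩ := ((h1.comp h2).eventually (gt_mem_nhds one_pos)).exists
  obtain ⟨f, f1, f2, f3⟩ := main N
  refine ⟨16 * N + 8, f, f1, f2, fun k hk => ?_⟩
  rintro ⟨j, j1, jk, h⟩
  refine f3 ⟨j, j1, jk.trans ?_, h⟩
  simp only [Function.comp, Polynomial.eval_comp, Polynomial.eval_add, Polynomial.eval_mul,
    Polynomial.eval_C, Polynomial.eval_X] at hN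
  rw [div_lt_one (Real.exp_pos _), Real.exp_nat_mul, Real.exp_log (by norm_num)] at hN
  have e : 16 / Real.log 2 * (N * Real.log 2) + 8 = ((16 * N + 8 : ℕ) : ℝ) := by
    push_cast; field_simp
  rw [e] at hN
  exact_mod_cast (hk.trans hN.le)

end Pool.Agent.Results.MP_8a557e_co.Counter
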